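import Pool.Agent.Helper92.RK.Alg

set_option autoImplicit false

/-!
# RK part TML: the learner is computed in polynomial time
-/

namespace Pool.Agent.Helper33.RK.TML

open Pool.Agent.NPC
open Pool.Agent.Helper92
open Pool.Agent.Helper92.AM (subs par Fine fs sample poly_subs poly_par)
open Pool.Agent.Helper92.RK

section

variable {α : Type} [TEnc α]

theorem poly_satL {ρ : α → List (ℕ × Bool)} {x : α → List Bool} (hρ : NPC.Poly ρ)
    (hx : NPC.Poly x) : NPC.Poly (fun a => satL (ρ a) (x a)) := by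
  unfold satL
  refine NPC.Poly.all (p := fun a (l : ℕ × Bool) => decide ((x a).getD l.1 false = l.2)) hρ ?_
  exact NPC.Poly.decide_eq (NPC.Poly.getD (d := fun _ => false)
    (hx.comp (NPC.Poly.fst NPC.Poly.id)) (NPC.Poly.fst (NPC.Poly.snd NPC.Poly.id))
    (NPC.Poly.const false)) (NPC.Poly.snd (NPC.Poly.snd NPC.Poly.id))

theorem poly_cnt {s : α → List (List Bool × Bool)} {ρ : α → List (ℕ × Bool)} {S : α → List ℕ}
    (b : Bool) (hs : NPC.Poly s) (hρ : NPC.Poly ρ) (hS : NPC.Poly S) :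
    NPC.Poly (fun a => cnt (s a) (ρ a) (S a) b) := by
  unfold cnt
  refine NPC.Poly.length (NPC.Poly.filter (p := fun a (z : List Bool × Bool) =>
    z.2 && satL (ρ a) z.1 && decide (par (S a) z.1 = b)) hs ?_)
  exact NPC.Poly.and (NPC.Poly.and (NPC.Poly.snd (NPC.Poly.snd NPC.Poly.id))
    (poly_satL (hρ.comp (NPC.Poly.fst NPC.Poly.id)) (NPC.Poly.fst (NPC.Poly.snd NPC.Poly.id))))
    (NPC.Poly.decide_eq (poly_par (hS.comp (NPC.Poly.fst NPC.Poly.id))
      (NPC.Poly.fst (NPC.Poly.snd NPC.Poly.id))) (NPC.Poly.const b))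

theorem poly_big (q : ℕ) {P : α → ℕ} {s : α → List (List Bool × Bool)}
    {ρ : α → List (ℕ × Bool)} {S : α → List ℕ} (hP : NPC.Poly P) (hs : NPC.Poly s)
    (hρ : NPC.Poly ρ) (hS : NPC.Poly S) :
    NPC.Poly (fun a => big q (P a) (s a) (ρ a) (S a)) := by
  unfold big
  have h1 := poly_cnt true hs hρ hS
  have h2 := poly_cnt false hs hρ hS
  exact NPC.Poly.decide_le (NPC.Poly.mul (NPC.Poly.const 3) (NPC.Poly.length hs))
    (NPC.Poly.mul (NPC.Poly.mul (NPC.Poly.const (4 * q)) hP)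
      (NPC.Poly.add (NPC.Poly.sub h1 h2) (NPC.Poly.sub h2 h1)))

theorem poly_vhat (D q : ℕ) {W P n i : α → ℕ} {ρ : α → List (ℕ × Bool)}
    {s : α → List (List Bool × Bool)} (hW : UPoly W) (hP : NPC.Poly P) (hn : UPoly n)
    (hi : NPC.Poly i) (hρ : NPC.Poly ρ) (hs : NPC.Poly s) :
    NPC.Poly (fun a => vhat (W a) D q (P a) (n a) (i a) (ρ a) (s a)) := by
  unfold vhat
  refine NPC.Poly.filter (p := fun a j => (subs (W a) D (List.range (n a))).any fun S =>
    decide (i a ∈ S) && decide (j ∈ S) && (S.all fun b => !decide (b ∈ (ρ a).map Prod.fst)) &&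
      big q (P a) (s a) (ρ a) S) hn.range ?_
  have f1 : NPC.Poly (fun x : α × ℕ => x.1) := NPC.Poly.fst NPC.Poly.id
  have f2 : NPC.Poly (fun x : α × ℕ => x.2) := NPC.Poly.snd NPC.Poly.id
  refine NPC.Poly.any (l := fun x : α × ℕ => subs (W x.1) D (List.range (n x.1)))
    (p := fun (x : α × ℕ) S =>
    decide (i x.1 ∈ S) && decide (x.2 ∈ S) && (S.all fun b => !decide (b ∈ (ρ x.1).map Prod.fst)) &&
      big q (P x.1) (s x.1) (ρ x.1) S) ?_ ?_
  · exact poly_subs (hW.comp f1) (NPC.Poly.const D) ((hn.comp f1).range)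
  have g1 : NPC.Poly (fun x : (α × ℕ) × List ℕ => x.1.1) := NPC.Poly.fst (NPC.Poly.fst NPC.Poly.id)
  have g2 : NPC.Poly (fun x : (α × ℕ) × List ℕ => x.1.2) := NPC.Poly.snd (NPC.Poly.fst NPC.Poly.id)
  have g3 : NPC.Poly (fun x : (α × ℕ) × List ℕ => x.2) := NPC.Poly.snd NPC.Poly.id
  refine NPC.Poly.and (NPC.Poly.and (NPC.Poly.and (NPC.Poly.decide_mem (hi.comp g1) g3)
    (NPC.Poly.decide_mem g2 g3)) ?_) (poly_big q (hP.comp g1) (hs.comp g1) (hρ.comp g1) g3)
  refine NPC.Poly.all (l := fun x : (α × ℕ) × List ℕ => x.2)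
    (p := fun (x : (α × ℕ) × List ℕ) b => !decide (b ∈ (ρ x.1.1).map Prod.fst)) g3 ?_
  refine NPC.Poly.not (NPC.Poly.decide_mem (NPC.Poly.snd NPC.Poly.id) ?_)
  exact NPC.Poly.map (F := fun _ (z : ℕ × Bool) => z.1)
    (hρ.comp (g1.comp (NPC.Poly.fst NPC.Poly.id))) (NPC.Poly.fst (NPC.Poly.snd NPC.Poly.id))

theorem poly_rhos (r : ℕ) {W n : α → ℕ} (hW : UPoly W) (hn : UPoly n) :
    NPC.Poly (fun a => rhos (W a) r (n a)) := by
  unfold rhos
  refine NPC.Poly.flatMap (l := fun a => subs (W a) r (List.range (n a)))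
    (F := fun a A => (subs (W a) r A).map fun B => A.map fun b => (b, decide (b ∈ B)))
    (poly_subs hW (NPC.Poly.const r) hn.range) ?_
  have f1 : NPC.Poly (fun x : α × List ℕ => x.1) := NPC.Poly.fst NPC.Poly.id
  have f2 : NPC.Poly (fun x : α × List ℕ => x.2) := NPC.Poly.snd NPC.Poly.id
  refine NPC.Poly.map (l := fun x : α × List ℕ => subs (W x.1) r x.2)
    (F := fun (x : α × List ℕ) B => x.2.map fun b => (b, decide (b ∈ B)))
    (poly_subs (hW.comp f1) (NPC.Poly.const r) f2) ?_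
  refine NPC.Poly.map (l := fun x : (α × List ℕ) × List ℕ => x.1.2)
    (F := fun (x : (α × List ℕ) × List ℕ) b => (b, decide (b ∈ x.2)))
    (NPC.Poly.snd (NPC.Poly.fst NPC.Poly.id)) ?_
  exact NPC.Poly.pair (NPC.Poly.snd NPC.Poly.id) (NPC.Poly.decide_mem (NPC.Poly.snd NPC.Poly.id)
    (NPC.Poly.snd (NPC.Poly.fst NPC.Poly.id)))

theorem poly_size {t : α → ℕ} (ht : NPC.Poly t) : NPC.Poly (fun a => Nat.size (t a)) :=
  (NPC.Poly.length (NPC.Poly.natBits ht)).congr fun a => by rw [Nat.size_eq_bits_len]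

theorem poly_cand1 (D u q B : ℕ) {W n t i P : α → ℕ} {s : α → List (List Bool × Bool)}
    {ρ : α → List (ℕ × Bool)} (hW : UPoly W) (hn : UPoly n) (ht : NPC.Poly t)
    (hs : NPC.Poly s) (hρ : NPC.Poly ρ) (hi : NPC.Poly i) (hP : NPC.Poly P) :
    NPC.Poly (fun a => cand1 (W a) D u q B (n a) (t a) (s a) (ρ a) (i a) (P a)) := by
  unfold cand1
  have hv := poly_vhat D q hW hP hn hi hρ hs
  refine NPC.Poly.ite (NPC.Poly.decide_le (NPC.Poly.length hv)
    (NPC.Poly.mul (NPC.Poly.const B) (poly_size ht))) ?_ (NPC.Poly.const [])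
  refine NPC.Poly.map (l := fun a => subs (W a) u (List.range (n a)))
    (F := fun a U => vhat (W a) D q (P a) (n a) (i a) (ρ a) (s a) ++ U)
    (poly_subs hW (NPC.Poly.const u) hn.range) ?_
  exact NPC.Poly.append (hv.comp (NPC.Poly.fst NPC.Poly.id)) (NPC.Poly.snd NPC.Poly.id)

theorem poly_cand (L0 r D u q B : ℕ) {W n t : α → ℕ} {s : α → List (List Bool × Bool)}
    (hW : UPoly W) (hn : UPoly n) (ht : UPoly t) (hs : NPC.Poly s) :
    NPC.Poly (fun a => cand (W a) L0 r D u q B (n a) (t a) (s a)) := by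
  unfold cand
  refine NPC.Poly.append (poly_subs hW (NPC.Poly.const L0) hn.range) ?_
  refine NPC.Poly.flatMap (l := fun a => rhos (W a) r (n a))
    (F := fun a ρ => (List.range (n a)).flatMap fun i =>
    (List.range (t a + 1)).flatMap fun P => cand1 (W a) D u q B (n a) (t a) (s a) ρ i P)
    (poly_rhos r hW hn) ?_
  have f1 : NPC.Poly (fun x : α × List (ℕ × Bool) => x.1) := NPC.Poly.fst NPC.Poly.id
  have f2 : NPC.Poly (fun x : α × List (ℕ × Bool) => x.2) := NPC.Poly.snd NPC.Poly.id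
  refine NPC.Poly.flatMap (l := fun x : α × List (ℕ × Bool) => List.range (n x.1))
    (F := fun (x : α × List (ℕ × Bool)) i =>
    (List.range (t x.1 + 1)).flatMap fun P =>
      cand1 (W x.1) D u q B (n x.1) (t x.1) (s x.1) x.2 i P) ((hn.comp f1).range) ?_
  have g1 : NPC.Poly (fun x : (α × List (ℕ × Bool)) × ℕ => x.1.1) :=
    NPC.Poly.fst (NPC.Poly.fst NPC.Poly.id)
  have g2 : NPC.Poly (fun x : (α × List (ℕ × Bool)) × ℕ => x.1.2) :=
    NPC.Poly.snd (NPC.Poly.fst NPC.Poly.id)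
  have g3 : NPC.Poly (fun x : (α × List (ℕ × Bool)) × ℕ => x.2) := NPC.Poly.snd NPC.Poly.id
  have hT : UPoly (fun x : (α × List (ℕ × Bool)) × ℕ => t x.1.1 + 1) :=
    UPoly.add (ht.comp g1) (UPoly.const 1)
  refine NPC.Poly.flatMap (l := fun x : (α × List (ℕ × Bool)) × ℕ => List.range (t x.1.1 + 1))
    (F := fun (x : (α × List (ℕ × Bool)) × ℕ) P =>
      cand1 (W x.1.1) D u q B (n x.1.1) (t x.1.1) (s x.1.1) x.1.2 x.2 P) hT.range ?_
  have k0 : NPC.Poly (fun x : ((α × List (ℕ × Bool)) × ℕ) × ℕ => x.1) := NPC.Poly.fst NPC.Poly.id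
  have k1 : NPC.Poly (fun x : ((α × List (ℕ × Bool)) × ℕ) × ℕ => x.1.1.1) := g1.comp k0
  have k2 : NPC.Poly (fun x : ((α × List (ℕ × Bool)) × ℕ) × ℕ => x.1.1.2) := g2.comp k0
  have k3 : NPC.Poly (fun x : ((α × List (ℕ × Bool)) × ℕ) × ℕ => x.1.2) := g3.comp k0
  exact poly_cand1 D u q B (hW.comp k1) (hn.comp k1) (ht.toPoly.comp k1) (hs.comp k1) k2 k3
    (NPC.Poly.snd NPC.Poly.id)

theorem poly_negs {s : α → List (List Bool × Bool)} (hs : NPC.Poly s) :
    NPC.Poly (fun a => negs (s a)) := by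
  unfold negs
  refine NPC.Poly.map (F := fun _ (z : List Bool × Bool) => z.1)
    (NPC.Poly.filter (p := fun _ (z : List Bool × Bool) => !z.2) hs ?_)
    (NPC.Poly.fst (NPC.Poly.snd NPC.Poly.id))
  exact NPC.Poly.not (NPC.Poly.snd (NPC.Poly.snd NPC.Poly.id))

theorem poly_half1 {s : α → List (List Bool × Bool)} (hs : NPC.Poly s) :
    NPC.Poly (fun a => half1 (s a)) := by
  unfold half1
  refine NPC.Poly.map (F := fun _ (z : (List Bool × Bool) × ℕ) => z.1)
    (NPC.Poly.filter (p := fun a (z : (List Bool × Bool) × ℕ) =>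
      decide (z.2 < (s a).length / 2)) (NPC.Poly.zipIdx hs) ?_)
    (NPC.Poly.fst (NPC.Poly.snd NPC.Poly.id))
  exact NPC.Poly.decide_lt (NPC.Poly.snd (NPC.Poly.snd NPC.Poly.id))
    ((NPC.Poly.div (NPC.Poly.length hs) (NPC.Poly.const 2)).comp (NPC.Poly.fst NPC.Poly.id))

theorem poly_half2 {s : α → List (List Bool × Bool)} (hs : NPC.Poly s) :
    NPC.Poly (fun a => half2 (s a)) := by
  unfold half2
  refine NPC.Poly.map (F := fun _ (z : (List Bool × Bool) × ℕ) => z.1)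
    (NPC.Poly.filter (p := fun a (z : (List Bool × Bool) × ℕ) =>
      decide ((s a).length / 2 ≤ z.2)) (NPC.Poly.zipIdx hs) ?_)
    (NPC.Poly.fst (NPC.Poly.snd NPC.Poly.id))
  exact NPC.Poly.decide_le
    ((NPC.Poly.div (NPC.Poly.length hs) (NPC.Poly.const 2)).comp (NPC.Poly.fst NPC.Poly.id))
    (NPC.Poly.snd (NPC.Poly.snd NPC.Poly.id))

theorem upoly_nv {s : α → List (List Bool × Bool)} (hs : NPC.Poly s) :
    UPoly (fun a => nv (s a)) := by
  unfold nv
  refine UPoly.length (NPC.Poly.fst ((NPC.Poly.getD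
    (d := fun _ => (([], false) : List Bool × Bool)) hs
      (NPC.Poly.const 0) (NPC.Poly.const _)).congr fun z => by cases s z <;> rfl))

end

theorem main : S_TML := by
  intro L0 r D u q B e
  have hz1 : NPC.Poly (fun z : List Unit × List (List Bool × Bool) => z.1) :=
    NPC.Poly.fst NPC.Poly.id
  have hs : NPC.Poly (fun z : List Unit × List (List Bool × Bool) => z.2) :=
    NPC.Poly.snd NPC.Poly.id
  have ht : UPoly (fun z : List Unit × List (List Bool × Bool) => z.1.length) :=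
    UPoly.length hz1
  have h2 := poly_half2 hs
  have hN := poly_negs h2
  unfold lrn
  refine NPC.Poly.ite (NPC.Poly.decide_le (NPC.Poly.mul (NPC.Poly.const (4 * e))
    (NPC.Poly.length hN)) (NPC.Poly.length h2)) (NPC.Poly.const (([[]], []) : Hy)) ?_
  exact NPC.Poly.pair (poly_cand L0 r D u q B ht (upoly_nv hs) ht (poly_half1 hs)) hN

end Pool.Agent.Helper33.RK.TML

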